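import Pool.Agent.Q328.BG.Geom

/-!
# Packing strips into the board
-/

set_option autoImplicit false

open Finset

namespace Pool.Agent.NPC.Q328.BG

variable {n h b k r lam B : ℕ} {a : ℕ → ℕ} {T : ℕ → Set (ℤ × ℤ)}

/-- Regions of the full strips and of the items. -/
structure Regions (n k r lam : ℕ) (a : ℕ → ℕ) (T : ℕ → Set (ℤ × ℤ)) : Prop where
  /-- the regions are disjoint -/
  disj : ∀ i < k + r, ∀ j < k + r, i ≠ j → Disjoint (T i) (T j)
  /-- they lie in the board -/
  sub : ∀ i < k + r, ∀ p ∈ T i, (1 ≤ p.1 ∧ p.1 ≤ n) ∧ (1 ≤ p.2 ∧ p.2 ≤ n)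
  /-- the full strips -/
  full : ∀ i < k, RectH (T i) n ∨ RectH (Prod.swap ⁻¹' T i) n
  /-- the items -/
  item : ∀ i < r, RectH (T (k + i)) (lam * a i) ∨ RectH (Prod.swap ⁻¹' T (k + i)) (lam * a i)

theorem Regions.swap (H : Regions n k r lam a T) :
    Regions n k r lam a (fun i => Prod.swap ⁻¹' T i) where
  disj i hi j hj hij := (H.disj i hi j hj hij).preimage _
  sub i hi p hp := (H.sub i hi _ hp).symm
  full i hi := by
    have h1 : Prod.swap ⁻¹' (Prod.swap ⁻¹' T i) = T i := by ext; simp
    rw [h1]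
    exact (H.full i hi).symm
  item i hi := by
    have h1 : Prod.swap ⁻¹' (Prod.swap ⁻¹' T (k + i)) = T (k + i) := by ext; simp
    rw [h1]
    exact (H.item i hi).symm

theorem Regions.not_both (H : Regions n k r lam a T) {i j : ℕ} (hi : i < k + r) (hj : j < k + r)
    (hij : i ≠ j) {p : ℤ × ℤ} (h1 : p ∈ T i) (h2 : p ∈ T j) : False :=
  Set.disjoint_left.1 (H.disj i hi j hj hij) h1 h2

/-- A rectangle in the board, in coordinates. -/
theorem rect_range (H : Regions n k r lam a T) {i l : ℕ} (hi : i < k + r) (hl : 0 < l) {x0 y0 : ℤ}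
    (h1 : ∀ x y : ℤ, x0 ≤ x → x < x0 + 2 → y0 ≤ y → y < y0 + l → (x, y) ∈ T i) :
    (1 ≤ x0 ∧ x0 + 1 ≤ n) ∧ (1 ≤ y0 ∧ y0 + l ≤ n + 1) := by
  have e1 := H.sub i hi _ (h1 x0 y0 (by omega) (by omega) (by omega) (by omega))
  have e2 := H.sub i hi _ (h1 (x0 + 1) (y0 + l - 1) (by omega) (by omega) (by omega) (by omega))
  dsimp only at e1 e2
  omega

/-- **Packing.** -/
theorem packH (H : Regions n k r lam a T) (h0 : RectH (T 0) n) (hn : n = lam * B) (hn2 : n = 2 * h)
    (hkb : k + b = h) (hk : 0 < k) (hlam : 2 * b < lam) (ha : ∀ i < r, 1 ≤ a i) :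
    ∃ f : ℕ → ℕ, (∀ i < r, f i < b) ∧
      ∀ j < b, ∑ i ∈ (range r).filter (fun i => f i = j), a i ≤ B := by
  classical
  have hnpos : 0 < n := by omega
  -- all full strips are horizontal
  have full' : ∀ i < k, ∃ x0 : ℤ, (1 ≤ x0 ∧ x0 + 1 ≤ n) ∧
      ∀ x y : ℤ, x0 ≤ x → x < x0 + 2 → 1 ≤ y → y ≤ n → (x, y) ∈ T i := by
    obtain ⟨x0, y0, hxy⟩ := h0
    have r0 := rect_range H (by omega : 0 < k + r) hnpos hxy
    intro i hi
    rcases H.full i hi with ⟨x1, y1, h1⟩ | ⟨x1, y1, h1⟩
    · have r1 := rect_range H (by omega : i < k + r) hnpos h1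
      refine ⟨x1, r1.1, fun x y hx1 hx2 hy1 hy2 => h1 x y hx1 hx2 (by omega) (by omega)⟩
    · by_cases hi0 : i = 0
      · subst hi0
        exact ⟨x0, r0.1, fun x y hx1 hx2 hy1 hy2 => hxy x y hx1 hx2 (by omega) (by omega)⟩
      · exfalso
        have r1 := rect_range H.swap (by omega : i < k + r) hnpos h1
        refine H.not_both (by omega : 0 < k + r) (by omega : i < k + r) (Ne.symm hi0)
          (p := (x0, x1)) (hxy x0 x1 (by omega) (by omega) (by omega) (by omega)) ?_
        have := h1 x1 x0 (by omega) (by omega) (by omega) (by omega)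
        exact this
  choose! X hX1 hX2 using full'
  -- the rows of the full strips
  set F : Finset ℤ := (range k ×ˢ range 2).image (fun p => X p.1 + p.2) with hF
  have hFinj : Set.InjOn (fun p : ℕ × ℕ => X p.1 + (p.2 : ℤ)) ((range k ×ˢ range 2 : Finset (ℕ × ℕ)) : Set (ℕ × ℕ)) := by
    rintro ⟨i, s⟩ hi ⟨j, t⟩ hj hij
    simp only [coe_product, coe_range, Set.mem_prod, Set.mem_Iio] at hi hj
    dsimp only at hij
    by_cases e : i = j
    · subst e
      have : s = t := by omega
      rw [this]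
    · exfalso
      refine H.not_both (by omega : i < k + r) (by omega : j < k + r) e (p := (X i + s, 1))
        (hX2 i hi.1 _ _ (by omega) (by omega) le_rfl (by omega)) ?_
      rw [hij]
      exact hX2 j hj.1 _ _ (by omega) (by omega) le_rfl (by omega)
  have hFcard : F.card = 2 * k := by
    rw [hF, card_image_of_injOn hFinj, card_product, card_range, card_range]
    ring
  have hFsub : F ⊆ Icc 1 (n : ℤ) := by
    intro x hx
    rw [hF, mem_image] at hx
    obtain ⟨⟨i, s⟩, hi, rfl⟩ := hx
    rw [mem_product, mem_range, mem_range] at hi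
    have := hX1 i hi.1
    rw [mem_Icc]
    dsimp only at *
    omega
  -- all items are horizontal
  have item' : ∀ i < r, ∃ x0 y0 : ℤ, ((1 ≤ x0 ∧ x0 + 1 ≤ n) ∧ (1 ≤ y0 ∧ y0 + (lam * a i : ℕ) ≤ n + 1)) ∧
      ∀ x y : ℤ, x0 ≤ x → x < x0 + 2 → y0 ≤ y → y < y0 + (lam * a i : ℕ) → (x, y) ∈ T (k + i) := by
    intro i hi
    have hpos : 0 < lam * a i := Nat.mul_pos (by omega) (ha i hi)
    rcases H.item i hi with ⟨x1, y1, h1⟩ | ⟨x1, y1, h1⟩
    · exact ⟨x1, y1, rect_range H (by omega) hpos h1, h1⟩
    · exfalso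
      have r1 := rect_range H.swap (by omega : k + i < k + r) hpos h1
      have hdisj : Disjoint F (Ico y1 (y1 + (lam * a i : ℕ))) := by
        rw [disjoint_left]
        intro x hx hx'
        rw [hF, mem_image] at hx
        obtain ⟨⟨j, s⟩, hj, rfl⟩ := hx
        rw [mem_product, mem_range, mem_range] at hj
        rw [mem_Ico] at hx'
        dsimp only at *
        refine H.not_both (by omega : j < k + r) (by omega : k + i < k + r) (by omega)
          (p := (X j + s, x1)) (hX2 j hj.1 _ _ (by omega) (by omega) (by omega) (by omega)) ?_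
        exact h1 x1 (X j + s) (by omega) (by omega) (by omega) (by omega)
      have hsub2 : F ∪ Ico y1 (y1 + (lam * a i : ℕ)) ⊆ Icc 1 (n : ℤ) := by
        refine union_subset hFsub fun x hx => ?_
        rw [mem_Ico] at hx
        rw [mem_Icc]
        omega
      have hc := card_le_card hsub2
      rw [card_union_of_disjoint hdisj, hFcard, Int.card_Ico, Int.card_Icc] at hc
      have hc2 : lam ≤ lam * a i := Nat.le_mul_of_pos_right _ (ha i hi)
      omega
  choose! X' Y' hXY1 hXY2 using item'
  -- the even rows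
  set q : ℕ → ℕ := fun i => ((X i + 1) / 2).toNat with hq
  set q' : ℕ → ℕ := fun i => ((X' i + 1) / 2).toNat with hq'
  have hqf : ∀ i < k, (1 ≤ q i ∧ q i ≤ h) ∧ (X i ≤ 2 * (q i : ℤ) ∧ 2 * (q i : ℤ) < X i + 2) := by
    intro i hi
    have := (hX1 i hi)
    simp only [hq]
    omega
  have hqi : ∀ i < r, (1 ≤ q' i ∧ q' i ≤ h) ∧ (X' i ≤ 2 * (q' i : ℤ) ∧ 2 * (q' i : ℤ) < X' i + 2) := by
    intro i hi
    have := (hXY1 i hi).1
    simp only [hq']
    omega
  have hqinj : Set.InjOn q (range k : Finset ℕ) := by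
    intro i hi j hj hij
    rw [coe_range, Set.mem_Iio] at hi hj
    by_contra e
    have e1 := hqf i hi
    have e2 := hqf j hj
    refine H.not_both (by omega : i < k + r) (by omega : j < k + r) e (p := (2 * (q i : ℤ), 1))
      (hX2 i hi _ _ (by omega) (by omega) le_rfl (by omega)) ?_
    rw [hij]
    exact hX2 j hj _ _ (by omega) (by omega) le_rfl (by omega)
  set Q : Finset ℕ := Icc 1 h \ (range k).image q with hQ
  have hQcard : Q.card = b := by
    rw [hQ, card_sdiff_of_subset, card_image_of_injOn hqinj, card_range, Nat.card_Icc]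
    · omega
    · intro x hx
      rw [mem_image] at hx
      obtain ⟨i, hi, rfl⟩ := hx
      rw [mem_range] at hi
      rw [mem_Icc]
      exact (hqf i hi).1
  have hq'Q : ∀ i < r, q' i ∈ Q := by
    intro i hi
    rw [hQ, mem_sdiff, mem_Icc]
    refine ⟨(hqi i hi).1, ?_⟩
    rw [mem_image]
    rintro ⟨j, hj, hj'⟩
    rw [mem_range] at hj
    have e1 := hqf j hj
    have e2 := hqi i hi
    have e3 := (hXY1 i hi).2
    have hpos : 0 < lam * a i := Nat.mul_pos (by omega) (ha i hi)
    refine H.not_both (by omega : j < k + r) (by omega : k + i < k + r) (by omega)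
      (p := (2 * (q' i : ℤ), Y' i)) ?_
      (hXY2 i hi _ _ (by omega) (by omega) le_rfl (by omega))
    rw [← hj']
    exact hX2 j hj _ _ (by omega) (by omega) (by omega) (by omega)
  -- the capacity
  have hcap : ∀ j ∈ Q, ∑ i ∈ (range r).filter (fun i => q' i = j), a i ≤ B := by
    intro j hj
    have hle : ∑ i ∈ (range r).filter (fun i => q' i = j), lam * a i ≤ n := by
      have hdis : ∀ i ∈ (range r).filter (fun i => q' i = j), ∀ i' ∈ (range r).filter (fun i => q' i = j),
          i ≠ i' → Disjoint (Ico (Y' i) (Y' i + (lam * a i : ℕ)))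
            (Ico (Y' i') (Y' i' + (lam * a i' : ℕ))) := by
        intro i hi i' hi' hne
        rw [mem_filter, mem_range] at hi hi'
        rw [disjoint_left]
        intro y hy hy'
        rw [mem_Ico] at hy hy'
        have e1 := hqi i hi.1
        have e2 := hqi i' hi'.1
        refine H.not_both (by omega : k + i < k + r) (by omega : k + i' < k + r) (by omega)
          (p := (2 * (j : ℤ), y)) ?_ ?_
        · rw [← hi.2]; exact hXY2 i hi.1 _ _ (by omega) (by omega) hy.1 hy.2
        · rw [← hi'.2]; exact hXY2 i' hi'.1 _ _ (by omega) (by omega) hy'.1 hy'.2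
      have hu : ((range r).filter (fun i => q' i = j)).biUnion
          (fun i => Ico (Y' i) (Y' i + (lam * a i : ℕ))) ⊆ Icc 1 (n : ℤ) := by
        intro y hy
        rw [mem_biUnion] at hy
        obtain ⟨i, hi, hy⟩ := hy
        rw [mem_filter, mem_range] at hi
        rw [mem_Ico] at hy
        rw [mem_Icc]
        have := hXY1 i hi.1
        omega
      have hc := card_le_card hu
      rw [card_biUnion hdis, Int.card_Icc] at hc
      simp only [Int.card_Ico] at hc
      have e : ∀ i, (Y' i + ((lam * a i : ℕ) : ℤ) - Y' i).toNat = lam * a i := fun i => by omega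
      simp only [e] at hc
      omega
    rw [← mul_sum, hn] at hle
    exact Nat.le_of_mul_le_mul_left hle (by omega)
  -- the bins
  have hQe : Q.card = (range b).card := by rw [hQcard, card_range]
  obtain ⟨g, hg⟩ : ∃ g : ℕ → ℕ, Set.BijOn g (Q : Set ℕ) (range b : Finset ℕ) :=
    Set.Finite.exists_bijOn_of_encard_eq (Q.finite_toSet) (by
      rw [Set.encard_coe_eq_coe_finsetCard, Set.encard_coe_eq_coe_finsetCard, hQe])
  refine ⟨fun i => g (q' i), fun i hi => ?_, fun j hj => ?_⟩
  · have := hg.mapsTo (hq'Q i hi)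
    simpa using this
  · obtain ⟨j', hj', hgj⟩ := hg.surjOn (show j ∈ ((range b : Finset ℕ) : Set ℕ) by simpa using hj)
    have e : (range r).filter (fun i => g (q' i) = j) = (range r).filter (fun i => q' i = j') := by
      apply filter_congr
      intro i hi
      rw [mem_range] at hi
      constructor
      · intro h1
        exact hg.injOn (hq'Q i hi) hj' (h1.trans hgj.symm)
      · intro h1
        rw [h1, hgj]
    rw [e]
    exact hcap j' hj'

/-- **Packing**, without the assumption on the first strip. -/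
theorem pack (H : Regions n k r lam a T) (hn : n = lam * B) (hn2 : n = 2 * h)
    (hkb : k + b = h) (hk : 0 < k) (hlam : 2 * b < lam) (ha : ∀ i < r, 1 ≤ a i) :
    ∃ f : ℕ → ℕ, (∀ i < r, f i < b) ∧
      ∀ j < b, ∑ i ∈ (range r).filter (fun i => f i = j), a i ≤ B := by
  rcases H.full 0 hk with h0 | h0
  · exact packH H h0 hn hn2 hkb hk hlam ha
  · exact packH H.swap h0 hn hn2 hkb hk hlam ha

end Pool.Agent.NPC.Q328.BG
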