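import Pool.Agent.Q328.BG.Defs
import Pool.Agent.Q328.BG.Pack

/-!
# Packings and boards
-/

set_option autoImplicit false

open Finset

namespace Pool.Agent.NPC.Q328.BG

/-- The lengths of the strips. -/
def len (n k lam : ℕ) (a : ℕ → ℕ) (i : ℕ) : ℕ := if i < k then n else lam * a (i - k)

/-- The first column of a strip. -/
def S (n k lam : ℕ) (a : ℕ → ℕ) (i : ℕ) : ℕ := ∑ j ∈ range i, len n k lam a j

/-- The columns `t` and `t + 1` are joined. -/
def Joined (pos : ℕ → ℤ × ℤ) (t : ℕ) : Prop :=
  K4 (pos (2 * t + 1)) (pos (2 * t + 2)) (pos (2 * t + 3)) (pos (2 * t + 4))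

variable {n h b k r lam B : ℕ} {a : ℕ → ℕ}

theorem S_succ (i : ℕ) : S n k lam a (i + 1) = S n k lam a i + len n k lam a i := by
  unfold S
  rw [sum_range_succ]

theorem S_mono {i j : ℕ} (hij : i ≤ j) : S n k lam a i ≤ S n k lam a j := by
  unfold S
  exact sum_le_sum_of_subset (range_mono hij)

theorem S_le {i m : ℕ} (hi : i < m) : S n k lam a i + len n k lam a i ≤ S n k lam a m := by
  rw [← S_succ]
  exact S_mono hi

theorem S_uniq {i j c d : ℕ} (hc : c < len n k lam a i) (hd : d < len n k lam a j)
    (h : S n k lam a i + c = S n k lam a j + d) : i = j ∧ c = d := by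
  have : i = j := by
    rcases lt_trichotomy i j with h1 | h1 | h1
    · have := S_le (n := n) (k := k) (lam := lam) (a := a) h1
      omega
    · exact h1
    · have := S_le (n := n) (k := k) (lam := lam) (a := a) h1
      omega
  subst this
  exact ⟨rfl, by omega⟩

theorem S_ex (m : ℕ) : ∀ t, t < S n k lam a m →
    ∃ i c, i < m ∧ c < len n k lam a i ∧ t = S n k lam a i + c := by
  induction m with
  | zero => intro t ht; simp [S] at ht
  | succ m ih =>
    intro t ht
    by_cases h1 : t < S n k lam a m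
    · obtain ⟨i, c, hi, hc, e⟩ := ih t h1
      exact ⟨i, c, by omega, hc, e⟩
    · rw [S_succ] at ht
      exact ⟨m, t - S n k lam a m, by omega, by omega, by omega⟩

theorem S_total (hsum : ∑ i ∈ range r, a i = b * B) (hn : n = lam * B) (hn2 : n = 2 * h)
    (hkb : k + b = h) : 2 * S n k lam a (k + r) = n ^ 2 := by
  unfold S
  rw [sum_range_add]
  have e1 : ∑ x ∈ range k, len n k lam a x = k * n := by
    rw [sum_congr rfl (g := fun _ => n), sum_const, card_range, smul_eq_mul]
    intro x hx
    rw [mem_range] at hx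
    simp [len, hx]
  have e2 : ∑ x ∈ range r, len n k lam a (k + x) = lam * (b * B) := by
    rw [← hsum, mul_sum]
    refine sum_congr rfl fun x _ => ?_
    simp [len]
  rw [e1, e2]
  have e3 : lam * (b * B) = b * n := by rw [hn]; ring
  rw [e3, ← add_mul, hkb]
  calc 2 * (h * n) = (2 * h) * n := by ring
    _ = n ^ 2 := by rw [← hn2]; ring

/-- A board gives a packing. -/
theorem sound {pos : ℕ → ℤ × ℤ} (hpos : Set.BijOn pos (letters n) (cells n))
    (hK : ∀ i < k + r, ∀ c, c + 1 < len n k lam a i → Joined pos (S n k lam a i + c))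
    (hsum : ∑ i ∈ range r, a i = b * B) (hn : n = lam * B) (hn2 : n = 2 * h)
    (hkb : k + b = h) (hk : 0 < k) (hlam : 2 * b < lam) (hlam3 : 3 ≤ lam) (hn3 : 3 ≤ n)
    (ha : ∀ i < r, 1 ≤ a i) :
    ∃ f : ℕ → ℕ, (∀ i < r, f i < b) ∧
      ∀ j < b, ∑ i ∈ (range r).filter (fun i => f i = j), a i ≤ B := by
  have htot := S_total hsum hn hn2 hkb
  have hin : ∀ i < k + r, ∀ c < len n k lam a i, 2 * (S n k lam a i + c) + 2 ≤ n ^ 2 := by
    intro i hi c hc
    have := S_le (n := n) (k := k) (lam := lam) (a := a) hi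
    omega
  have hlet1 : ∀ i < k + r, ∀ c < len n k lam a i, 2 * (S n k lam a i + c) + 1 ∈ letters n :=
    fun i hi c hc => ⟨by omega, by have := hin i hi c hc; omega⟩
  have hlet2 : ∀ i < k + r, ∀ c < len n k lam a i, 2 * (S n k lam a i + c) + 2 ∈ letters n :=
    fun i hi c hc => ⟨by omega, by have := hin i hi c hc; omega⟩
  set T : ℕ → Set (ℤ × ℤ) := fun i => pos '' {u | ∃ c < len n k lam a i,
    u = 2 * (S n k lam a i + c) + 1 ∨ u = 2 * (S n k lam a i + c) + 2} with hT
  have hmem : ∀ i < k + r, ∀ u, (∃ c < len n k lam a i,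
    u = 2 * (S n k lam a i + c) + 1 ∨ u = 2 * (S n k lam a i + c) + 2) → u ∈ letters n := by
    rintro i hi u ⟨c, hc, rfl | rfl⟩
    · exact hlet1 i hi c hc
    · exact hlet2 i hi c hc
  have hrect : ∀ i < k + r, 3 ≤ len n k lam a i →
      RectH (T i) (len n k lam a i) ∨ RectH (Prod.swap ⁻¹' T i) (len n k lam a i) := by
    intro i hi h3
    refine strip (P := fun c => pos (2 * (S n k lam a i + c) + 1))
      (Q := fun c => pos (2 * (S n k lam a i + c) + 2)) h3 (fun c hc => ?_)
      (fun c d hc hd hcd => ?_) (fun c hc => ?_)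
    · exact hK i hi c hc
    · have m1 := hlet1 i hi c hc
      have m2 := hlet2 i hi c hc
      have m3 := hlet1 i hi d hd
      have m4 := hlet2 i hi d hd
      refine ⟨fun e => ?_, fun e => ?_, fun e => ?_, fun e => ?_⟩
      · have := hpos.injOn m1 m3 e; omega
      · have := hpos.injOn m1 m4 e; omega
      · have := hpos.injOn m2 m3 e; omega
      · have := hpos.injOn m2 m4 e; omega
    · exact ⟨⟨_, ⟨c, hc, Or.inl rfl⟩, rfl⟩, ⟨_, ⟨c, hc, Or.inr rfl⟩, rfl⟩⟩
  have H : Regions n k r lam a T := by
    refine ⟨fun i hi j hj hij => ?_, fun i hi p hp => ?_, fun i hi => ?_, fun i hi => ?_⟩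
    · rw [Set.disjoint_left]
      rintro _ ⟨u, hu, rfl⟩ ⟨v, hv, huv⟩
      have e := hpos.injOn (hmem j hj v hv) (hmem i hi u hu) huv
      subst e
      obtain ⟨c, hc, e1⟩ := hu
      obtain ⟨d, hd, e2⟩ := hv
      exact hij (S_uniq hc hd (by omega)).1
    · obtain ⟨u, hu, rfl⟩ := hp
      exact hpos.mapsTo (hmem i hi u hu)
    · have e : len n k lam a i = n := by simp [len, hi]
      have := hrect i (by omega)
      rw [e] at this
      exact this hn3
    · have e : len n k lam a (k + i) = lam * a i := by simp [len]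
      have := hrect (k + i) (by omega)
      rw [e] at this
      refine this (hlam3.trans ?_)
      exact Nat.le_mul_of_pos_right _ (ha i hi)
  exact pack H hn hn2 hkb hk hlam ha

/-- A packing gives a board. -/
theorem complete (hsum : ∑ i ∈ range r, a i = b * B) (hn : n = lam * B) (hn2 : n = 2 * h)
    (hkb : k + b = h) {f : ℕ → ℕ} (hf : ∀ i < r, f i < b)
    (hcap : ∀ j < b, ∑ i ∈ (range r).filter (fun i => f i = j), a i ≤ B) :
    ∃ pos : ℕ → ℤ × ℤ, Set.BijOn pos (letters n) (cells n) ∧
    ∀ i < k + r, ∀ c, c + 1 < len n k lam a i → Joined pos (S n k lam a i + c) := by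
  classical
  have htot := S_total hsum hn hn2 hkb
  have hex := S_ex (n := n) (k := k) (lam := lam) (a := a) (k + r)
  choose! I C hI hC hIC using hex
  set off : ℕ → ℕ := fun i => lam * ∑ j ∈ (range i).filter (fun j => f j = f i), a j with hoff
  set rho : ℕ → ℕ := fun i => if i < k then i else k + f (i - k) with hrho
  set Y : ℕ → ℕ := fun i => if i < k then 0 else off (i - k) with hY
  -- facts
  have hrho_lt : ∀ i < k + r, rho i < h := by
    intro i hi
    simp only [hrho]
    split_ifs with h1
    · omega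
    · have := hf (i - k) (by omega)
      omega
  have hY_le : ∀ i < k + r, Y i + len n k lam a i ≤ n := by
    intro i hi
    simp only [hY, len]
    split_ifs with h1
    · omega
    · have hj := hcap (f (i - k)) (hf _ (by omega))
      have h2 : ∑ j ∈ (range (i - k)).filter (fun j => f j = f (i - k)), a j + a (i - k) ≤
          ∑ j ∈ (range r).filter (fun j => f j = f (i - k)), a j := by
        rw [← sum_filter_add_sum_filter_not ((range r).filter (fun j => f j = f (i - k)))
          (fun j => j < i - k)]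
        refine add_le_add (sum_le_sum_of_subset ?_) ?_
        · intro x hx
          rw [mem_filter, mem_range] at hx
          rw [mem_filter, mem_filter, mem_range]
          exact ⟨⟨by omega, hx.2⟩, hx.1⟩
        · refine single_le_sum (f := a) (fun _ _ => Nat.zero_le _) ?_
          rw [mem_filter, mem_filter, mem_range]
          exact ⟨⟨by omega, rfl⟩, by omega⟩
      simp only [hoff]
      rw [← mul_add, hn]
      exact Nat.mul_le_mul_left _ (h2.trans hj)
  have hsep : ∀ i < k + r, ∀ j < k + r, i < j → rho i = rho j →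
      Y i + len n k lam a i ≤ Y j := by
    intro i hi j hj hij hr
    simp only [hrho] at hr
    split_ifs at hr with h1 h2 h2
    · omega
    · omega
    · omega
    · have hff : f (i - k) = f (j - k) := by omega
      simp only [hY, h1, h2, if_false, len, hoff]
      rw [← mul_add]
      refine Nat.mul_le_mul_left _ ?_
      rw [← sum_filter_add_sum_filter_not ((range (j - k)).filter (fun x => f x = f (j - k)))
          (fun x => x < i - k)]
      refine add_le_add (sum_le_sum_of_subset ?_) ?_
      · intro x hx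
        rw [mem_filter, mem_range] at hx
        rw [mem_filter, mem_filter, mem_range]
        exact ⟨⟨by omega, by rw [hx.2, hff]⟩, hx.1⟩
      · refine single_le_sum (f := a) (fun _ _ => Nat.zero_le _) ?_
        rw [mem_filter, mem_filter, mem_range]
        exact ⟨⟨by omega, hff⟩, by omega⟩
  have hcol : ∀ t < S n k lam a (k + r), ∀ t' < S n k lam a (k + r),
      rho (I t) = rho (I t') → Y (I t) + C t = Y (I t') + C t' → t = t' := by
    intro t ht t' ht' h1 h2
    have e : I t = I t' := by
      rcases lt_trichotomy (I t) (I t') with h3 | h3 | h3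
      · have := hsep _ (hI t ht) _ (hI t' ht') h3 h1
        have := hC t ht
        omega
      · exact h3
      · have := hsep _ (hI t' ht') _ (hI t ht) h3 h1.symm
        have := hC t' ht'
        omega
    rw [e] at h2
    rw [hIC t ht, hIC t' ht', e]
    omega
  set pos : ℕ → ℤ × ℤ := fun u => (((2 * rho (I ((u - 1) / 2)) + (u - 1) % 2 + 1 : ℕ) : ℤ),
    ((Y (I ((u - 1) / 2)) + C ((u - 1) / 2) + 1 : ℕ) : ℤ)) with hposd
  have hmaps : Set.MapsTo pos (letters n) (cells n) := by
    intro u hu
    obtain ⟨h1, h2⟩ := hu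
    have ht : (u - 1) / 2 < S n k lam a (k + r) := by omega
    have e1 := hrho_lt _ (hI _ ht)
    have e2 := hY_le _ (hI _ ht)
    have e3 := hC _ ht
    simp only [cells, Set.mem_ofPred_eq, hposd]
    omega
  have hinj : Set.InjOn pos (letters n) := by
    intro u hu v hv huv
    obtain ⟨h1, h2⟩ := hu
    obtain ⟨h3, h4⟩ := hv
    have ht : (u - 1) / 2 < S n k lam a (k + r) := by omega
    have ht' : (v - 1) / 2 < S n k lam a (k + r) := by omega
    simp only [hposd, Prod.mk.injEq, Nat.cast_inj] at huv
    have e := hcol _ ht _ ht' (by omega) (by omega)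
    omega
  refine ⟨pos, ⟨hmaps, hinj, ?_⟩, ?_⟩
  · have e1 : letters n = ((Icc 1 (n ^ 2) : Finset ℕ) : Set ℕ) := by
      ext u
      simp [letters]
    have e2 : cells n = ((Icc (1 : ℤ) n ×ˢ Icc (1 : ℤ) n : Finset (ℤ × ℤ)) : Set (ℤ × ℤ)) := by
      ext p
      rw [mem_coe, mem_product, mem_Icc, mem_Icc]
      rfl
    rw [e1, e2] at hmaps ⊢
    rw [e1] at hinj
    refine Finset.surjOn_of_injOn_of_card_le pos hmaps hinj ?_
    rw [card_product, Int.card_Icc, Nat.card_Icc]
    have : ((n : ℤ) + 1 - 1).toNat = n := by omega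
    rw [this]
    apply le_of_eq
    rw [Nat.add_sub_cancel, sq]
  · intro i hi c hc
    have hle := S_le (n := n) (k := k) (lam := lam) (a := a) hi
    have ht : S n k lam a i + c < S n k lam a (k + r) := by omega
    have ht' : S n k lam a i + (c + 1) < S n k lam a (k + r) := by omega
    have u1 := S_uniq (hC _ ht) (by omega : c < len n k lam a i) (hIC _ ht).symm
    have u2 := S_uniq (hC _ ht') hc (hIC _ ht').symm
    have p1 : pos (2 * (S n k lam a i + c) + 1) = (((2 * rho i + 1 : ℕ) : ℤ), ((Y i + c + 1 : ℕ) : ℤ)) := by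
      have d1 : (2 * (S n k lam a i + c) + 1 - 1) / 2 = S n k lam a i + c := by omega
      have d2 : (2 * (S n k lam a i + c) + 1 - 1) % 2 = 0 := by omega
      simp only [hposd, d1, d2, u1.1, u1.2]
    have p2 : pos (2 * (S n k lam a i + c) + 2) = (((2 * rho i + 2 : ℕ) : ℤ), ((Y i + c + 1 : ℕ) : ℤ)) := by
      have d1 : (2 * (S n k lam a i + c) + 2 - 1) / 2 = S n k lam a i + c := by omega
      have d2 : (2 * (S n k lam a i + c) + 2 - 1) % 2 = 1 := by omega
      simp only [hposd, d1, d2, u1.1, u1.2]
    have p3 : pos (2 * (S n k lam a i + c) + 3) = (((2 * rho i + 1 : ℕ) : ℤ), ((Y i + c + 2 : ℕ) : ℤ)) := by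
      have d1 : (2 * (S n k lam a i + c) + 3 - 1) / 2 = S n k lam a i + (c + 1) := by omega
      have d2 : (2 * (S n k lam a i + c) + 3 - 1) % 2 = 0 := by omega
      simp only [hposd, d1, d2, u2.1, u2.2]
      exact Prod.ext (by push_cast; ring) (by push_cast; ring)
    have p4 : pos (2 * (S n k lam a i + c) + 4) = (((2 * rho i + 2 : ℕ) : ℤ), ((Y i + c + 2 : ℕ) : ℤ)) := by
      have d1 : (2 * (S n k lam a i + c) + 4 - 1) / 2 = S n k lam a i + (c + 1) := by omega
      have d2 : (2 * (S n k lam a i + c) + 4 - 1) % 2 = 1 := by omega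
      simp only [hposd, d1, d2, u2.1, u2.2]
      exact Prod.ext (by push_cast; ring) (by push_cast; ring)
    unfold Joined K4
    rw [p1, p2, p3, p4]
    simp only [adj_iff]
    omega

end Pool.Agent.NPC.Q328.BG
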