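import Pool.Agent.Q328.BG.Geom

/-!
# Boggle logic puzzles: definitions
-/

set_option autoImplicit false

namespace Pool.Agent.NPC.Q328.BG

/-- The cells of the `n × n` board. -/
def cells (n : ℕ) : Set (ℤ × ℤ) := {p | (1 ≤ p.1 ∧ p.1 ≤ n) ∧ (1 ≤ p.2 ∧ p.2 ≤ n)}

/-- The letters `1, …, n ^ 2`. -/
def letters (n : ℕ) : Set ℕ := {u | 1 ≤ u ∧ u ≤ n ^ 2}

/-- A board is a bijection from the cells to the letters. -/
def IsBoard (n : ℕ) (B : ℤ × ℤ → ℕ) : Prop := Set.BijOn B (cells n) (letters n)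

/-- A word is a sequence of pairwise different letters of length at least two. -/
def IsWord (n : ℕ) (w : List ℕ) : Prop := 2 ≤ w.length ∧ w.Nodup ∧ ∀ u ∈ w, u ∈ letters n

/-- The word occurs in the board: consecutive letters are on adjacent cells. -/
def Occurs (n : ℕ) (B : ℤ × ℤ → ℕ) (w : List ℕ) : Prop :=
  w.IsChain fun u v => ∃ p ∈ cells n, ∃ q ∈ cells n, B p = u ∧ B q = v ∧ Adj p q

/-- The inputs `(n, P)`: `n ≥ 1` in unary, as the length of the first list, and a finite set `P` of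
words, as a list without repetitions. -/
def IsInput (I : List Unit × List (List ℕ)) : Prop :=
  1 ≤ I.1.length ∧ I.2.Nodup ∧ ∀ w ∈ I.2, IsWord I.1.length w

/-- BOGGLE-SOLVE: `(n, P)` is an input and there is a board in which all words of `P` occur. -/
def BoggleSolve (I : List Unit × List (List ℕ)) : Prop :=
  IsInput I ∧ ∃ B, IsBoard I.1.length B ∧ ∀ w ∈ I.2, Occurs I.1.length B w

/-! ### Positions of the letters -/

theorem inverse {α β : Type} [Nonempty α] {s : Set α} {t : Set β} {f : α → β}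
    (h : Set.BijOn f s t) : ∃ g : β → α, Set.BijOn g t s ∧ (∀ x ∈ s, g (f x) = x) ∧
      ∀ y ∈ t, f (g y) = y := by
  refine ⟨Function.invFunOn f s, ?_, fun x hx => ?_, fun y hy => ?_⟩
  · exact h.symm h.invOn_invFunOn.symm
  · exact h.invOn_invFunOn.1 hx
  · exact h.invOn_invFunOn.2 hy

theorem chain_congr {R R' : ℕ → ℕ → Prop} {P : ℕ → Prop} (h : ∀ u v, P u → P v → (R u v ↔ R' u v)) :
    ∀ w : List ℕ, (∀ u ∈ w, P u) → (w.IsChain R ↔ w.IsChain R')
  | [], _ => by simp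
  | [u], _ => by simp
  | u :: v :: w, hw => by
    rw [List.isChain_cons_cons, List.isChain_cons_cons,
      chain_congr h (v :: w) (fun x hx => hw x (List.mem_cons_of_mem _ hx)),
      h u v (hw u (by simp)) (hw v (by simp))]

theorem occurs_iff {n : ℕ} {B : ℤ × ℤ → ℕ} {pos : ℕ → ℤ × ℤ}
    (h2 : Set.BijOn pos (letters n) (cells n)) (h3 : ∀ p ∈ cells n, pos (B p) = p)
    (h4 : ∀ u ∈ letters n, B (pos u) = u) {w : List ℕ} (hw : ∀ u ∈ w, u ∈ letters n) :
    Occurs n B w ↔ w.IsChain fun u v => Adj (pos u) (pos v) := by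
  unfold Occurs
  refine chain_congr (P := fun u => u ∈ letters n) (fun u v hu hv => ?_) w hw
  constructor
  · rintro ⟨p, hp, q, hq, rfl, rfl, h⟩
    rw [h3 p hp, h3 q hq]
    exact h
  · intro h
    exact ⟨pos u, h2.mapsTo hu, pos v, h2.mapsTo hv, h4 u hu, h4 v hv, h⟩

theorem solve_iff (I : List Unit × List (List ℕ)) : BoggleSolve I ↔ IsInput I ∧
    ∃ pos : ℕ → ℤ × ℤ, Set.BijOn pos (letters I.1.length) (cells I.1.length) ∧
      ∀ w ∈ I.2, w.IsChain fun u v => Adj (pos u) (pos v) := by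
  unfold BoggleSolve
  refine and_congr_right fun hI => ?_
  constructor
  · rintro ⟨B, hB, h⟩
    obtain ⟨pos, h1, h2, h3⟩ := inverse hB
    refine ⟨pos, h1, fun w hw => ?_⟩
    exact (occurs_iff h1 h2 h3 (hI.2.2 w hw).2.2).1 (h w hw)
  · rintro ⟨pos, h1, h⟩
    obtain ⟨B, hB, h2, h3⟩ := inverse h1
    refine ⟨B, hB, fun w hw => ?_⟩
    exact (occurs_iff h1 h3 h2 (hI.2.2 w hw).2.2).2 (h w hw)

end Pool.Agent.NPC.Q328.BG
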