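import Mathlib

/-!
# Strips in the king's graph

The strip of length `l` has `l` columns with two cells each; all cells of consecutive columns are
adjacent.  In the king's graph a strip of length at least three is drawn as a rectangle.
-/

set_option autoImplicit false

namespace Pool.Agent.NPC.Q328.BG

/-- Adjacent cells: they touch horizontally, vertically or diagonally. -/
def Adj (p q : ℤ × ℤ) : Prop := max |p.1 - q.1| |p.2 - q.2| = 1

theorem adj_iff (p q : ℤ × ℤ) : Adj p q ↔ (p.1 ≠ q.1 ∨ p.2 ≠ q.2) ∧ p.1 ≤ q.1 + 1 ∧ q.1 ≤ p.1 + 1 ∧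
    p.2 ≤ q.2 + 1 ∧ q.2 ≤ p.2 + 1 := by
  unfold Adj
  constructor
  · intro h
    have h1 : |p.1 - q.1| ≤ 1 := h ▸ le_max_left _ _
    have h2 : |p.2 - q.2| ≤ 1 := h ▸ le_max_right _ _
    rw [abs_le] at h1 h2
    refine ⟨?_, by omega, by omega, by omega, by omega⟩
    by_contra h3
    push Not at h3
    rw [h3.1, h3.2] at h
    simp at h
  · rintro ⟨h1, h2, h3, h4, h5⟩
    apply le_antisymm
    · apply max_le <;> rw [abs_le] <;> constructor <;> omega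
    · rcases h1 with h1 | h1
      · exact le_max_of_le_left (Int.one_le_abs (sub_ne_zero.2 h1))
      · exact le_max_of_le_right (Int.one_le_abs (sub_ne_zero.2 h1))

theorem adj_symm {p q : ℤ × ℤ} (h : Adj p q) : Adj q p := by
  rw [adj_iff] at *
  obtain ⟨h1, h2, h3, h4, h5⟩ := h
  refine ⟨?_, h3, h2, h5, h4⟩
  rcases h1 with h1 | h1
  · exact Or.inl (Ne.symm h1)
  · exact Or.inr (Ne.symm h1)

theorem adj_swap {p q : ℤ × ℤ} (h : Adj p q) : Adj p.swap q.swap := by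
  unfold Adj at *
  rw [max_comm]
  exact h

/-- All four cells of two columns are pairwise adjacent. -/
def K4 (p q p' q' : ℤ × ℤ) : Prop :=
  Adj p q ∧ Adj p' q' ∧ Adj p p' ∧ Adj p q' ∧ Adj q p' ∧ Adj q q'

theorem K4_swap {p q p' q' : ℤ × ℤ} (h : K4 p q p' q') : K4 p.swap q.swap p'.swap q'.swap :=
  ⟨adj_swap h.1, adj_swap h.2.1, adj_swap h.2.2.1, adj_swap h.2.2.2.1, adj_swap h.2.2.2.2.1,
    adj_swap h.2.2.2.2.2⟩

/-- The column is in the position `{(x, y), (x + 1, y)}`. -/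
def Ho (p q : ℤ × ℤ) (x y : ℤ) : Prop :=
  p.2 = y ∧ q.2 = y ∧ ((p.1 = x ∧ q.1 = x + 1) ∨ (p.1 = x + 1 ∧ q.1 = x))

theorem near {p q r : ℤ × ℤ} {x y : ℤ} (h : Ho p q x y) (h1 : Adj r p) (h2 : Adj r q) :
    (r.2 = y + 1 ∨ r.2 = y - 1) ∧ (r.1 = x ∨ r.1 = x + 1) := by
  rw [adj_iff] at h1 h2
  obtain ⟨a1, a2, a3⟩ := h
  obtain ⟨b1, b2, b3, b4, b5⟩ := h1
  obtain ⟨c1, c2, c3, c4, c5⟩ := h2
  rcases a3 with ⟨a3, a4⟩ | ⟨a3, a4⟩
  · rcases b1 with b1 | b1 <;> rcases c1 with c1 | c1 <;> constructor <;> omega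
  · rcases b1 with b1 | b1 <;> rcases c1 with c1 | c1 <;> constructor <;> omega

theorem side {p q r s : ℤ × ℤ} {x y : ℤ} (h : Ho p q x y) (h1 : Adj r s) (h2 : Adj r p)
    (h3 : Adj r q) (h4 : Adj s p) (h5 : Adj s q) :
    ∃ e : ℤ, (e = 1 ∨ e = -1) ∧ Ho r s x (y + e) := by
  obtain ⟨a1, a2⟩ := near h h2 h3
  obtain ⟨b1, b2⟩ := near h h4 h5
  rw [adj_iff] at h1
  obtain ⟨c1, c2, c3, c4, c5⟩ := h1
  have e1 : r.2 = s.2 := by
    rcases a1 with a1 | a1 <;> rcases b1 with b1 | b1 <;> omega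
  have e2 : r.1 ≠ s.1 := by
    rcases c1 with c1 | c1
    · exact c1
    · exact absurd e1 c1
  refine ⟨r.2 - y, ?_, by omega, by omega, ?_⟩
  · rcases a1 with a1 | a1 <;> omega
  · rcases a2 with a2 | a2 <;> rcases b2 with b2 | b2 <;> omega

theorem ho_of {p q : ℤ × ℤ} (h1 : Adj p q) (h : p.2 = q.2) : Ho p q (min p.1 q.1) p.2 := by
  rw [adj_iff] at h1
  obtain ⟨c1, c2, c3, c4, c5⟩ := h1
  have e2 : p.1 ≠ q.1 := by
    rcases c1 with c1 | c1
    · exact c1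
    · exact absurd h c1
  refine ⟨rfl, h.symm, ?_⟩
  rcases lt_or_gt_of_ne e2 with e | e
  · rw [min_eq_left e.le]; left; constructor <;> omega
  · rw [min_eq_right e.le]; right; constructor <;> omega

theorem ne_of_ho {p q r s : ℤ × ℤ} {x y : ℤ} (h1 : Ho p q x y) (h2 : Ho r s x y) :
    p = r ∨ p = s := by
  obtain ⟨a1, a2, a3⟩ := h1
  obtain ⟨b1, b2, b3⟩ := h2
  simp only [Prod.ext_iff]
  rcases a3 with ⟨a3, a4⟩ | ⟨a3, a4⟩ <;> rcases b3 with ⟨b3, b4⟩ | ⟨b3, b4⟩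
  · left; constructor <;> omega
  · right; constructor <;> omega
  · right; constructor <;> omega
  · left; constructor <;> omega

/-- If the middle column is in one line of cells then the three columns form a rectangle. -/
theorem mid {p0 q0 p1 q1 p2 q2 : ℤ × ℤ} (h1 : K4 p0 q0 p1 q1) (h2 : K4 p1 q1 p2 q2)
    (h3 : p0 ≠ p2) (h4 : p0 ≠ q2) (h : p1.2 = q1.2) :
    ∃ x y e : ℤ, (e = 1 ∨ e = -1) ∧ Ho p0 q0 x (y - e) ∧ Ho p1 q1 x y ∧ Ho p2 q2 x (y + e) := by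
  obtain ⟨a1, a2, a3, a4, a5, a6⟩ := h1
  obtain ⟨-, b2, b3, b4, b5, b6⟩ := h2
  have k1 := ho_of a2 h
  obtain ⟨e, he, k0⟩ := side k1 a1 a3 a4 a5 a6
  obtain ⟨e', he', k2⟩ := side k1 b2 (adj_symm b3) (adj_symm b5) (adj_symm b4) (adj_symm b6)
  have hne : e ≠ e' := by
    rintro rfl
    rcases ne_of_ho k0 k2 with h | h
    · exact h3 h
    · exact h4 h
  have hee : e = - e' := by omega
  refine ⟨min p1.1 q1.1, p1.2, e', he', ?_, k1, k2⟩
  rw [hee] at k0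
  exact k0

theorem diag {p q r : ℤ × ℤ} (h : Adj p q) (hx : p.1 ≠ q.1) (hy : p.2 ≠ q.2) (h1 : Adj r p)
    (h2 : Adj r q) : r = (p.1, q.2) ∨ r = (q.1, p.2) := by
  rw [adj_iff] at h h1 h2
  obtain ⟨-, a2, a3, a4, a5⟩ := h
  obtain ⟨b1, b2, b3, b4, b5⟩ := h1
  obtain ⟨c1, c2, c3, c4, c5⟩ := h2
  simp only [Prod.ext_iff]
  rcases lt_or_gt_of_ne hx with e | e <;> rcases lt_or_gt_of_ne hy with e' | e' <;>
    rcases b1 with b1 | b1 <;> rcases c1 with c1 | c1 <;> omega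

theorem three {p0 q0 p1 q1 p2 q2 : ℤ × ℤ} (h1 : K4 p0 q0 p1 q1) (h2 : K4 p1 q1 p2 q2)
    (h3 : p0 ≠ p2) (h4 : p0 ≠ q2) (h5 : q0 ≠ p2) :
    (∃ x y e : ℤ, (e = 1 ∨ e = -1) ∧ Ho p0 q0 x (y - e) ∧ Ho p1 q1 x y ∧ Ho p2 q2 x (y + e)) ∨
    (∃ x y e : ℤ, (e = 1 ∨ e = -1) ∧ Ho p0.swap q0.swap x (y - e) ∧ Ho p1.swap q1.swap x y ∧
      Ho p2.swap q2.swap x (y + e)) := by
  by_cases h : p1.2 = q1.2
  · exact Or.inl (mid h1 h2 h3 h4 h)
  by_cases h' : p1.1 = q1.1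
  · right
    refine mid (K4_swap h1) (K4_swap h2) ?_ ?_ h'
    · exact fun h => h3 (Prod.swap_injective h)
    · exact fun h => h4 (Prod.swap_injective h)
  · exfalso
    obtain ⟨a1, a2, a3, a4, a5, a6⟩ := h1
    obtain ⟨-, b2, b3, b4, b5, b6⟩ := h2
    have e1 := diag a2 h' h a3 a4
    have e2 := diag a2 h' h a5 a6
    have e3 := diag a2 h' h (adj_symm b3) (adj_symm b5)
    have e4 : p0 ≠ q0 := by
      rintro rfl
      rw [adj_iff] at a1
      simp at a1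
    rcases e1 with e1 | e1 <;> rcases e2 with e2 | e2 <;> rcases e3 with e3 | e3
    · exact e4 (e1.trans e2.symm)
    · exact e4 (e1.trans e2.symm)
    · exact h3 (e1.trans e3.symm)
    · exact h5 (e2.trans e3.symm)
    · exact h5 (e2.trans e3.symm)
    · exact h3 (e1.trans e3.symm)
    · exact e4 (e1.trans e2.symm)
    · exact e4 (e1.trans e2.symm)

/-- A strip whose first column is horizontal forms a rectangle. -/
theorem line {P Q : ℕ → ℤ × ℤ} {l : ℕ} (hK : ∀ c, c + 1 < l → K4 (P c) (Q c) (P (c + 1)) (Q (c + 1)))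
    (hP : ∀ c d, c < l → d < l → c ≠ d → P c ≠ P d ∧ P c ≠ Q d ∧ Q c ≠ P d ∧ Q c ≠ Q d)
    {x y e : ℤ} (he : e = 1 ∨ e = -1) (h0 : Ho (P 0) (Q 0) x y) (h1 : Ho (P 1) (Q 1) x (y + e)) :
    ∀ c, c + 1 < l → Ho (P c) (Q c) x (y + e * c) ∧ Ho (P (c + 1)) (Q (c + 1)) x (y + e * (c + 1)) := by
  intro c
  induction c with
  | zero =>
    intro _
    refine ⟨?_, ?_⟩
    · simpa using h0
    · simpa using h1
  | succ c ih =>
    intro hc
    obtain ⟨i1, i2⟩ := ih (by omega)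
    have hd := hP c (c + 1 + 1) (by omega) hc (by omega)
    have h2 : (P (c + 1)).2 = (Q (c + 1)).2 := by
      unfold Ho at i2
      omega
    obtain ⟨x', y', e', he', j0, j1, j2⟩ := mid (hK c (by omega)) (hK (c + 1) hc) hd.1 hd.2.1 h2
    refine ⟨by exact_mod_cast i2, ?_⟩
    have hx : x' = x := by unfold Ho at i2 j1; omega
    have hy : y' = y + e * (c + 1) := by unfold Ho at i2 j1; omega
    have hee : e' = e := by
      have e3 : y' - e' = y + e * c := by unfold Ho at i1 j0; omega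
      rw [hy] at e3
      linarith
    subst hx hy hee
    have e4 : y + e' * (((c : ℕ) : ℤ) + 1) + e' = y + e' * (((c + 1 : ℕ) : ℤ) + 1) := by
      push_cast; ring
    rw [← e4]
    exact j2

/-- The positions of the strip contain a rectangle with two rows and `l` columns. -/
def RectH (T : Set (ℤ × ℤ)) (l : ℕ) : Prop :=
  ∃ x0 y0 : ℤ, ∀ x y : ℤ, x0 ≤ x → x < x0 + 2 → y0 ≤ y → y < y0 + l → (x, y) ∈ T

theorem rectH_of {P Q : ℕ → ℤ × ℤ} {l : ℕ} (hl : 2 ≤ l)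
    (hK : ∀ c, c + 1 < l → K4 (P c) (Q c) (P (c + 1)) (Q (c + 1)))
    (hP : ∀ c d, c < l → d < l → c ≠ d → P c ≠ P d ∧ P c ≠ Q d ∧ Q c ≠ P d ∧ Q c ≠ Q d)
    {x y e : ℤ} (he : e = 1 ∨ e = -1) (h0 : Ho (P 0) (Q 0) x y) (h1 : Ho (P 1) (Q 1) x (y + e))
    {T : Set (ℤ × ℤ)} (hT : ∀ c, c < l → P c ∈ T ∧ Q c ∈ T) : RectH T l := by
  have key : ∀ c, c < l → Ho (P c) (Q c) x (y + e * c) := by
    intro c hc
    have h := line hK hP he h0 h1
    rcases Nat.lt_or_ge (c + 1) l with h2 | h2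
    · exact (h c h2).1
    · have h3 := (h (c - 1) (by omega)).2
      have h4 : c - 1 + 1 = c := by omega
      have h5 : (((c - 1 : ℕ) : ℤ) + 1) = (c : ℤ) := by omega
      rw [h4, h5] at h3
      exact h3
  have fin : ∀ c : ℕ, c < l → ∀ u v : ℤ, x ≤ u → u < x + 2 → v = y + e * c → (u, v) ∈ T := by
    intro c hc u v hu1 hu2 hv
    obtain ⟨k1, k2, k3⟩ := key c hc
    obtain ⟨t1, t2⟩ := hT c hc
    have hu : u = x ∨ u = x + 1 := by omega
    rcases k3 with ⟨k3, k4⟩ | ⟨k3, k4⟩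
    · rcases hu with hu | hu
      · have : (u, v) = P c := Prod.ext (by simp [hu, k3]) (by simp [hv, k1])
        rw [this]; exact t1
      · have : (u, v) = Q c := Prod.ext (by simp [hu, k4]) (by simp [hv, k2])
        rw [this]; exact t2
    · rcases hu with hu | hu
      · have : (u, v) = Q c := Prod.ext (by simp [hu, k4]) (by simp [hv, k2])
        rw [this]; exact t2
      · have : (u, v) = P c := Prod.ext (by simp [hu, k3]) (by simp [hv, k1])
        rw [this]; exact t1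
  rcases he with he | he
  · refine ⟨x, y, fun u v hu1 hu2 hv1 hv2 => fin (v - y).toNat (by omega) u v hu1 hu2 ?_⟩
    rw [he, Int.toNat_of_nonneg (by omega)]
    ring
  · refine ⟨x, y - l + 1, fun u v hu1 hu2 hv1 hv2 => fin (y - v).toNat (by omega) u v hu1 hu2 ?_⟩
    rw [he, Int.toNat_of_nonneg (by omega)]
    ring

/-- **A strip of length at least three contains a rectangle**, horizontal or vertical. -/
theorem strip {P Q : ℕ → ℤ × ℤ} {l : ℕ} (hl : 3 ≤ l)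
    (hK : ∀ c, c + 1 < l → K4 (P c) (Q c) (P (c + 1)) (Q (c + 1)))
    (hP : ∀ c d, c < l → d < l → c ≠ d → P c ≠ P d ∧ P c ≠ Q d ∧ Q c ≠ P d ∧ Q c ≠ Q d)
    {T : Set (ℤ × ℤ)} (hT : ∀ c, c < l → P c ∈ T ∧ Q c ∈ T) :
    RectH T l ∨ RectH (Prod.swap ⁻¹' T) l := by
  have hd := hP 0 2 (by omega) (by omega) (by omega)
  rcases three (hK 0 (by omega)) (hK 1 (by omega)) hd.1 hd.2.1 hd.2.2.1 with
    ⟨x, y, e, he, h0, h1, -⟩ | ⟨x, y, e, he, h0, h1, -⟩
  · left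
    exact rectH_of (by omega) hK hP he h0 (by simpa using h1) hT
  · right
    refine rectH_of (P := fun c => (P c).swap) (Q := fun c => (Q c).swap) (by omega)
      (fun c hc => K4_swap (hK c hc)) (fun c d hc hd hcd => ?_) he h0 (by simpa using h1)
      (fun c hc => by simpa using hT c hc)
    obtain ⟨d1, d2, d3, d4⟩ := hP c d hc hd hcd
    exact ⟨fun h => d1 (Prod.swap_injective h), fun h => d2 (Prod.swap_injective h),
      fun h => d3 (Prod.swap_injective h), fun h => d4 (Prod.swap_injective h)⟩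

end Pool.Agent.NPC.Q328.BG
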