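import Pool.Agent.Q328.BG.Defs
import Pool.Agent.NPC.Dec
import Pool.Agent.H671R2.PolyAuto

/-!
# Boggle logic puzzles are in NP
-/

set_option autoImplicit false

namespace Pool.Agent.NPC.Q328

open Pool.Agent.NPC

/-- The list has no duplicates. -/
def nodupB {β : Type} [DecidableEq β] (L : List β) : Bool :=
  L.zipIdx.all fun a => L.zipIdx.all fun b => !decide (a.1 = b.1) || decide (a.2 = b.2)

theorem nodupB_iff {β : Type} [DecidableEq β] {L : List β} : nodupB L = true ↔ L.Nodup := by
  unfold nodupB
  simp only [List.all_eq_true, Bool.or_eq_true, Bool.not_eq_true', decide_eq_false_iff_not,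
    decide_eq_true_eq]
  rw [List.nodup_iff_getElem?_ne_getElem?]
  constructor
  · intro h i j hij hj he
    have hi : i < L.length := by omega
    rw [List.getElem?_eq_getElem hi, List.getElem?_eq_getElem hj, Option.some.injEq] at he
    have h1 : (L[i], i) ∈ L.zipIdx := by
      rw [List.mk_mem_zipIdx_iff_getElem?]; exact List.getElem?_eq_getElem hi
    have h2 : (L[j], j) ∈ L.zipIdx := by
      rw [List.mk_mem_zipIdx_iff_getElem?]; exact List.getElem?_eq_getElem hj
    rcases h _ h1 _ h2 with h3 | h3
    · exact h3 he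
    · simp only at h3; omega
  · rintro h ⟨a, i⟩ ha ⟨b, j⟩ hb
    rw [List.mk_mem_zipIdx_iff_getElem?] at ha hb
    by_cases hij : i = j
    · exact Or.inr hij
    · left
      intro he
      simp only at he
      subst he
      rcases lt_or_gt_of_ne hij with h1 | h1
      · exact h i j h1 (by
          by_contra h2
          rw [List.getElem?_eq_none (by omega)] at hb
          exact absurd hb (by simp)) (ha.trans hb.symm)
      · exact h j i h1 (by
          by_contra h2
          rw [List.getElem?_eq_none (by omega)] at ha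
          exact absurd ha (by simp)) (hb.trans ha.symm)

theorem poly_nodupB {α β : Type} [TEnc α] [TEnc β] [DecidableEq β] {L : α → List β}
    (hL : Poly L) : Poly (fun a => nodupB (L a)) := by
  refine Poly.all (p := fun a (b : β × ℕ) => (L a).zipIdx.all fun c =>
    !decide (b.1 = c.1) || decide (b.2 = c.2)) (Poly.zipIdx hL) ?_
  refine Poly.all (p := fun (q : α × (β × ℕ)) (c : β × ℕ) =>
    !decide (q.2.1 = c.1) || decide (q.2.2 = c.2)) ((Poly.zipIdx hL).comp (Poly.fst Poly.id)) ?_
  have h1 : Poly (fun r : (α × (β × ℕ)) × (β × ℕ) => r.1.2) := Poly.snd (Poly.fst Poly.id)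
  have h2 : Poly (fun r : (α × (β × ℕ)) × (β × ℕ) => r.2) := Poly.snd Poly.id
  exact Poly.or (Poly.not (Poly.dec_eq (Poly.fst h1) (Poly.fst h2)))
    (Poly.decide_eq (Poly.snd h1) (Poly.snd h2))

theorem isChain_iff_zip {β : Type} {R : β → β → Prop} :
    ∀ w : List β, w.IsChain R ↔ ∀ p ∈ w.zip w.tail, R p.1 p.2
  | [] => by simp
  | [u] => by simp
  | u :: v :: w => by
    rw [List.isChain_cons_cons, isChain_iff_zip (v :: w)]
    simp only [List.tail_cons, List.zip_cons_cons, List.mem_cons, forall_eq_or_imp]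

end Pool.Agent.NPC.Q328

namespace Pool.Agent.NPC.Q328.BG

open Pool.Agent.NPC

/-- The position of a letter according to a certificate. -/
def pc (w : List (ℕ × ℕ)) (u : ℕ) : ℕ × ℕ := w.getD (u - 1) (0, 0)

/-- Adjacency for natural coordinates. -/
def adjB (p q : ℕ × ℕ) : Bool :=
  decide ((¬ (p.1 = q.1) ∨ ¬ (p.2 = q.2)) ∧ p.1 ≤ q.1 + 1 ∧ q.1 ≤ p.1 + 1 ∧
    p.2 ≤ q.2 + 1 ∧ q.2 ≤ p.2 + 1)

theorem adjB_iff (p q : ℕ × ℕ) :
    adjB p q = true ↔ Adj ((p.1 : ℤ), (p.2 : ℤ)) ((q.1 : ℤ), (q.2 : ℤ)) := by
  unfold adjB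
  rw [decide_eq_true_iff, adj_iff]
  simp only [ne_eq, Nat.cast_inj]
  constructor <;> rintro ⟨h1, h2, h3, h4, h5⟩ <;> exact ⟨h1, by omega, by omega, by omega, by omega⟩

/-- The check of the input. -/
def inB (I : List Unit × List (List ℕ)) : Bool :=
  decide (1 ≤ I.1.length) && (nodupB I.2 && I.2.all fun w =>
    decide (2 ≤ w.length) && (nodupB w && w.all fun u => decide (1 ≤ u ∧ u ≤ I.1.length * I.1.length)))

theorem inB_iff (I : List Unit × List (List ℕ)) : inB I = true ↔ IsInput I := by
  unfold inB IsInput IsWord letters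
  simp only [Bool.and_eq_true, decide_eq_true_eq, nodupB_iff, List.all_eq_true, sq,
    Set.mem_ofPred_eq]

/-- The verifier. -/
def ver (x : (List Unit × List (List ℕ)) × List (ℕ × ℕ)) : Bool :=
  inB x.1 && (decide (x.2.length = x.1.1.length * x.1.1.length) &&
    (nodupB x.2 && ((x.2.all fun p => decide ((1 ≤ p.1 ∧ p.1 ≤ x.1.1.length) ∧
      (1 ≤ p.2 ∧ p.2 ≤ x.1.1.length))) &&
    x.1.2.all fun w => (w.zip w.tail).all fun p => adjB (pc x.2 p.1) (pc x.2 p.2))))

theorem poly_inB : Poly inB := by
  unfold inB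
  refine Poly.and (by fun_prop) (Poly.and (poly_nodupB (Poly.snd Poly.id)) ?_)
  refine Poly.all (p := fun (I : List Unit × List (List ℕ)) (w : List ℕ) =>
    decide (2 ≤ w.length) &&
    (nodupB w && w.all fun u => decide (1 ≤ u ∧ u ≤ I.1.length * I.1.length)))
    (Poly.snd Poly.id) ?_
  refine Poly.and (by fun_prop) (Poly.and (poly_nodupB (Poly.snd Poly.id)) ?_)
  fun_prop

theorem poly_adjB {α : Type} [TEnc α] {p q : α → ℕ × ℕ} (hp : Poly p) (hq : Poly q) :
    Poly (fun a => adjB (p a) (q a)) := by
  unfold adjB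
  fun_prop

theorem poly_pc {α : Type} [TEnc α] {w : α → List (ℕ × ℕ)} {u : α → ℕ} (hw : Poly w)
    (hu : Poly u) : Poly (fun a => pc (w a) (u a)) := by
  unfold pc
  fun_prop

theorem poly_ver : Poly ver := by
  unfold ver
  refine Poly.and (poly_inB.comp (Poly.fst Poly.id)) (Poly.and (by fun_prop)
    (Poly.and (poly_nodupB (Poly.snd Poly.id)) (Poly.and (by fun_prop) ?_)))
  refine Poly.all (p := fun (x : (List Unit × List (List ℕ)) × List (ℕ × ℕ)) (w : List ℕ) =>
    (w.zip w.tail).all fun p => adjB (pc x.2 p.1) (pc x.2 p.2)) (by fun_prop) ?_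
  refine Poly.all (p := fun (x : ((List Unit × List (List ℕ)) × List (ℕ × ℕ)) × List ℕ)
    (p : ℕ × ℕ) => adjB (pc x.1.2 p.1) (pc x.1.2 p.2)) (by fun_prop) ?_
  exact poly_adjB (poly_pc (by fun_prop) (by fun_prop)) (poly_pc (by fun_prop) (by fun_prop))

theorem bijOn_of {n : ℕ} {pos : ℕ → ℤ × ℤ} (hmaps : Set.MapsTo pos (letters n) (cells n))
    (hinj : Set.InjOn pos (letters n)) : Set.BijOn pos (letters n) (cells n) := by
  refine ⟨hmaps, hinj, ?_⟩
  have e1 : letters n = ((Finset.Icc 1 (n ^ 2) : Finset ℕ) : Set ℕ) := by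
    ext u
    simp [letters]
  have e2 : cells n = ((Finset.Icc (1 : ℤ) n ×ˢ Finset.Icc (1 : ℤ) n : Finset (ℤ × ℤ)) :
      Set (ℤ × ℤ)) := by
    ext p
    rw [Finset.mem_coe, Finset.mem_product, Finset.mem_Icc, Finset.mem_Icc]
    rfl
  rw [e1, e2] at hmaps ⊢
  rw [e1] at hinj
  refine Finset.surjOn_of_injOn_of_card_le pos hmaps hinj ?_
  rw [Finset.card_product, Int.card_Icc, Nat.card_Icc]
  have : ((n : ℤ) + 1 - 1).toNat = n := by omega
  rw [this]
  apply le_of_eq
  rw [Nat.add_sub_cancel, sq]

theorem mem : InNPP BoggleSolve := by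
  refine inNPP_of poly_ver ((Polynomial.X * Polynomial.X) * (16 * Polynomial.X + 4) + 1)
    fun I => ?_
  rw [solve_iff]
  obtain ⟨U, P⟩ := I
  set n := U.length with hn
  constructor
  · rintro ⟨hI, pos, hpos, hch⟩
    set w : List (ℕ × ℕ) := (List.range (n * n)).map
      (fun i => ((pos (i + 1)).1.toNat, (pos (i + 1)).2.toNat)) with hw
    have hget : ∀ u ∈ letters n, pc w u = ((pos u).1.toNat, (pos u).2.toNat) := by
      intro u hu
      obtain ⟨h1, h2⟩ := hu
      have h3 : u - 1 < w.length := by
        rw [hw, List.length_map, List.length_range, ← sq]; omega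
      unfold pc
      rw [List.getD_eq_getElem _ _ h3]
      simp only [hw, List.getElem_map, List.getElem_range]
      rw [Nat.sub_add_cancel h1]
    have hin : ∀ u ∈ letters n, ((pc w u).1 : ℤ) = (pos u).1 ∧ ((pc w u).2 : ℤ) = (pos u).2 := by
      intro u hu
      have := hpos.mapsTo hu
      unfold cells at this
      simp only [Set.mem_ofPred_eq] at this
      rw [hget u hu]
      constructor <;> simp only <;> omega
    refine ⟨w, ?_, ?_⟩
    · have h4 := sz_le_length_mul w (16 * n + 3) (by
        intro e he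
        rw [hw, List.mem_map] at he
        obtain ⟨i, hi, rfl⟩ := he
        rw [List.mem_range] at hi
        rw [sz_pair]
        have e0 := hpos.mapsTo (show i + 1 ∈ letters n by
          constructor
          · omega
          · rw [sq]; omega)
        unfold cells at e0
        simp only [Set.mem_ofPred_eq] at e0
        have e1 := sz_nat_le (pos (i + 1)).1.toNat
        have e2 := sz_nat_le (pos (i + 1)).2.toNat
        have e3 := Poly.size_le_self (pos (i + 1)).1.toNat
        have e4 := Poly.size_le_self (pos (i + 1)).2.toNat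
        omega)
      rw [hw, List.length_map, List.length_range, ← hw] at h4
      have h5 : n ≤ sz (U, P) := by
        have := length_lt_sz U
        rw [sz_pair]
        omega
      simp only [Polynomial.eval_add, Polynomial.eval_mul, Polynomial.eval_X,
        Polynomial.eval_one, Polynomial.eval_ofNat]
      calc sz w ≤ n * n * (16 * n + 3 + 1) + 1 := h4
        _ = n * n * (16 * n + 4) + 1 := by ring
        _ ≤ sz (U, P) * sz (U, P) * (16 * sz (U, P) + 4) + 1 := by gcongr
    · unfold ver
      simp only [Bool.and_eq_true, decide_eq_true_eq, nodupB_iff, List.all_eq_true]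
      refine ⟨(inB_iff _).2 hI, by simp [hw, ← hn], ?_, ?_, ?_⟩
      · rw [hw]
        refine List.Nodup.map_on ?_ List.nodup_range
        intro i hi j hj hij
        rw [List.mem_range] at hi hj
        have l1 : i + 1 ∈ letters n := ⟨by omega, by rw [sq]; omega⟩
        have l2 : j + 1 ∈ letters n := ⟨by omega, by rw [sq]; omega⟩
        have m1 := hpos.mapsTo l1
        have m2 := hpos.mapsTo l2
        unfold cells at m1 m2
        simp only [Set.mem_ofPred_eq] at m1 m2
        rw [Prod.mk.injEq] at hij
        have := hpos.injOn l1 l2 (Prod.ext (by omega) (by omega))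
        omega
      · intro p hp
        rw [hw, List.mem_map] at hp
        obtain ⟨i, hi, rfl⟩ := hp
        rw [List.mem_range] at hi
        have m1 := hpos.mapsTo (show i + 1 ∈ letters n from ⟨by omega, by rw [sq]; omega⟩)
        unfold cells at m1
        simp only [Set.mem_ofPred_eq] at m1
        simp only
        omega
      · intro x hx p hp
        have h1 := hch x hx
        rw [isChain_iff_zip] at h1
        have h2 := h1 p hp
        have hpx := List.of_mem_zip hp
        have l1 : p.1 ∈ letters n := (hI.2.2 x hx).2.2 _ hpx.1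
        have l2 : p.2 ∈ letters n := (hI.2.2 x hx).2.2 _ (List.mem_of_mem_tail hpx.2)
        rw [adjB_iff, (hin _ l1).1, (hin _ l1).2, (hin _ l2).1, (hin _ l2).2]
        exact h2
  · rintro ⟨w, -, hw⟩
    unfold ver at hw
    simp only [Bool.and_eq_true, decide_eq_true_eq, nodupB_iff, List.all_eq_true] at hw
    obtain ⟨h1, h2, h3, h4, h5⟩ := hw
    refine ⟨(inB_iff _).1 h1, fun u => (((pc w u).1 : ℤ), ((pc w u).2 : ℤ)), ?_, ?_⟩
    · have hlt : ∀ u ∈ letters n, u - 1 < w.length := by
        intro u hu
        obtain ⟨h6, h7⟩ := hu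
        rw [h2, ← hn, ← sq]
        omega
      apply bijOn_of
      · intro u hu
        have h6 : pc w u ∈ w := by
          unfold pc
          rw [List.getD_eq_getElem _ _ (hlt u hu)]
          exact List.getElem_mem _
        have h7 := h4 _ h6
        unfold cells
        simp only [Set.mem_ofPred_eq]
        omega
      · intro u hu v hv huv
        simp only [Prod.mk.injEq, Nat.cast_inj] at huv
        have h6 : pc w u = pc w v := Prod.ext huv.1 huv.2
        unfold pc at h6
        rw [List.getD_eq_getElem _ _ (hlt u hu), List.getD_eq_getElem _ _ (hlt v hv)] at h6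
        have h7 := (List.Nodup.getElem_inj_iff h3).1 h6
        have h8 := hu.1
        have h9 := hv.1
        omega
    · intro x hx
      rw [isChain_iff_zip]
      intro p hp
      exact (adjB_iff _ _).1 (h5 x hx p hp)

end Pool.Agent.NPC.Q328.BG
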