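import Pool.Agent.Q328.BG.Core
import Pool.Agent.H43R3.SN.SRC
import Pool.Agent.H243R3.SN.Poly

/-!
# The puzzles of the reduction from bin packing
-/

set_option autoImplicit false

namespace Pool.Agent.NPC.Q328.BG

open Pool.Agent.NPC Pool.Agent.NPC.H632 Pool.Agent.H557R2.Tri Pool.Agent.H692R2
open Pool.Agent.H43R3.SN Pool.Agent.NPC.SNP

/-- The two words that join the columns `t` and `t + 1`. -/
def words (t : ℕ) : List (List ℕ) :=
  [[2 * t + 1, 2 * t + 2, 2 * t + 3, 2 * t + 4], [2 * t + 2, 2 * t + 4, 2 * t + 1, 2 * t + 3]]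

theorem words_iff (pos : ℕ → ℤ × ℤ) (t : ℕ) :
    (∀ w ∈ words t, w.IsChain fun u v => Adj (pos u) (pos v)) ↔ Joined pos t := by
  unfold words Joined K4
  simp only [List.mem_cons, List.not_mem_nil, or_false, forall_eq_or_imp, forall_eq,
    List.isChain_cons_cons, List.isChain_singleton, and_true]
  constructor
  · rintro ⟨⟨a1, a2, a3⟩, b1, b2, b3⟩
    exact ⟨a1, a3, b3, adj_symm b2, a2, b1⟩
  · rintro ⟨c1, c2, c3, c4, c5, c6⟩
    exact ⟨⟨c1, c5, c2⟩, c6, adj_symm c4, c3⟩

theorem words_isWord {n t : ℕ} (ht : 2 * t + 4 ≤ n ^ 2) : ∀ w ∈ words t, IsWord n w := by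
  unfold words
  simp only [List.mem_cons, List.not_mem_nil, or_false, forall_eq_or_imp, forall_eq]
  constructor
  · refine ⟨by simp, by simp, ?_⟩
    simp only [List.mem_cons, List.not_mem_nil, or_false, letters, Set.mem_ofPred_eq]
    omega
  · refine ⟨by simp, by simp, ?_⟩
    simp only [List.mem_cons, List.not_mem_nil, or_false, letters, Set.mem_ofPred_eq]
    omega

/-- The lengths as a list, the partial sums, and the joined columns. -/
def cut (n k r lam : ℕ) (a : List ℕ) (i : ℕ) : ℕ :=
  (((List.range (k + r)).filter (fun j => decide (j < i))).map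
    (fun j => if j < k then n else lam * a.getD (j - k) 0)).sum

/-- The joined columns. -/
def cols (n k r lam : ℕ) (a : List ℕ) : List ℕ :=
  (List.range (n * n / 2)).filter (fun t =>
    decide (¬ (t + 1 ∈ (List.range (k + r + 1)).map (cut n k r lam a))))

/-- The puzzle for the sizes `a`, `b` bins and the capacity `B`. -/
def inst (a : List ℕ) (b B : ℕ) : List Unit × List (List ℕ) :=
  ((List.range ((2 * b + 2) * B)).map (fun _ => ()),
    (cols ((2 * b + 2) * B) ((b + 1) * B - b) a.length (2 * b + 2) a).flatMap words)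

theorem filter_range (m i : ℕ) : (List.range m).filter (fun j => decide (j < i)) =
    List.range (min i m) := by
  induction m with
  | zero => simp
  | succ m ih =>
    rw [List.range_succ, List.filter_append, ih]
    by_cases h : m < i
    · have h1 : min i m = m := by omega
      have h2 : min i (m + 1) = m + 1 := by omega
      rw [h1, h2, List.range_succ]
      simp [h]
    · have h1 : min i m = i := by omega
      have h2 : min i (m + 1) = i := by omega
      rw [h1, h2]
      simp [h]

theorem sum_map_range (g : ℕ → ℕ) (i : ℕ) : ((List.range i).map g).sum = ∑ j ∈ Finset.range i, g j := by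
  induction i with
  | zero => simp
  | succ i ih =>
    rw [List.range_succ, List.map_append, List.sum_append, ih, Finset.sum_range_succ]
    simp

theorem sum_getD (a : List ℕ) : ∑ i ∈ Finset.range a.length, a.getD i 0 = a.sum := by
  induction a with
  | nil => simp
  | cons x a ih =>
    rw [List.length_cons, Finset.sum_range_succ']
    simp only [List.getD_cons_succ, List.getD_cons_zero]
    rw [ih, List.sum_cons, add_comm]

theorem cut_eq {n k r lam : ℕ} {a : List ℕ} {i : ℕ} (hi : i ≤ k + r) :
    cut n k r lam a i = S n k lam (fun j => a.getD j 0) i := by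
  unfold cut S len
  rw [filter_range, Nat.min_eq_left hi, sum_map_range]

theorem mem_cols {n k r lam : ℕ} {a : List ℕ} {t : ℕ} : t ∈ cols n k r lam a ↔
    t < n * n / 2 ∧ ∀ i ≤ k + r, S n k lam (fun j => a.getD j 0) i ≠ t + 1 := by
  unfold cols
  rw [List.mem_filter, List.mem_range]
  refine and_congr_right fun _ => ?_
  rw [decide_eq_true_iff, List.mem_map]
  push Not
  constructor
  · intro h i hi
    rw [← cut_eq hi]
    exact h i (List.mem_range.2 (by omega))
  · intro h i hi
    rw [List.mem_range] at hi
    rw [cut_eq (by omega)]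
    exact h i (by omega)

/-- The joined columns of the puzzle are the columns which are not the last one of a strip. -/
theorem cols_iff {n k r lam : ℕ} {a : List ℕ} (pos : ℕ → ℤ × ℤ)
    (htot : 2 * S n k lam (fun j => a.getD j 0) (k + r) = n ^ 2) :
    (∀ t ∈ cols n k r lam a, Joined pos t) ↔
    ∀ i < k + r, ∀ c, c + 1 < len n k lam (fun j => a.getD j 0) i →
      Joined pos (S n k lam (fun j => a.getD j 0) i + c) := by
  have hn2 : n * n / 2 = S n k lam (fun j => a.getD j 0) (k + r) := by
    have : n * n = 2 * S n k lam (fun j => a.getD j 0) (k + r) := by rw [htot, sq]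
    omega
  constructor
  · intro h i hi c hc
    apply h
    rw [mem_cols]
    have h1 := S_le (n := n) (k := k) (lam := lam) (a := fun j => a.getD j 0) hi
    refine ⟨by omega, fun j hj he => ?_⟩
    rcases Nat.lt_or_ge j (i + 1) with h2 | h2
    · have := S_mono (n := n) (k := k) (lam := lam) (a := fun j => a.getD j 0)
        (show j ≤ i by omega)
      omega
    · have := S_mono (n := n) (k := k) (lam := lam) (a := fun j => a.getD j 0) h2
      rw [S_succ] at this
      omega
  · intro h t ht
    rw [mem_cols] at ht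
    obtain ⟨h1, h2⟩ := ht
    obtain ⟨i, c, hi, hc, rfl⟩ := S_ex (n := n) (k := k) (lam := lam)
      (a := fun j => a.getD j 0) (k + r) t (by omega)
    apply h i hi
    rcases Nat.lt_or_ge (c + 1) (len n k lam (fun j => a.getD j 0) i) with h3 | h3
    · exact h3
    · exfalso
      refine h2 (i + 1) (by omega) ?_
      rw [S_succ]
      omega

theorem inst_input {a : List ℕ} {b B : ℕ} (hB : 1 ≤ B) (hsum : a.sum = b * B) :
    IsInput (inst a b B) := by
  have hlen : (inst a b B).1.length = (2 * b + 2) * B := by simp [inst]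
  set n := (2 * b + 2) * B with hn
  have hge : (b + 1) * B ≥ b + 1 := Nat.le_mul_of_pos_right _ hB
  have hn2 : n = 2 * ((b + 1) * B) := by rw [hn]; ring
  have hs : ∑ i ∈ Finset.range a.length, a.getD i 0 = b * B := by
    rw [← hsum, sum_getD]
  have htot := S_total (k := (b + 1) * B - b) (r := a.length) (h := (b + 1) * B) hs hn hn2 (by omega)
  refine ⟨?_, ?_, ?_⟩
  · rw [hlen]; omega
  · unfold inst
    dsimp only
    rw [List.nodup_flatMap]
    constructor
    · intro t _
      simp [words]
    · have hnd : (cols ((2 * b + 2) * B) ((b + 1) * B - b) a.length (2 * b + 2) a).Nodup :=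
        List.Nodup.filter _ List.nodup_range
      refine hnd.imp fun {s t} hst => ?_
      rw [Function.onFun, List.disjoint_left]
      intro w hw hw'
      simp only [words, List.mem_cons, List.not_mem_nil, or_false] at hw hw'
      rcases hw with rfl | rfl <;> rcases hw' with hw' | hw' <;>
        simp only [List.cons.injEq, and_true] at hw' <;> omega
  · intro w hw
    unfold inst at hw
    dsimp only at hw
    rw [List.mem_flatMap] at hw
    obtain ⟨t, ht, hw⟩ := hw
    rw [hlen]
    refine words_isWord ?_ w hw
    rw [mem_cols] at ht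
    obtain ⟨h1, h2⟩ := ht
    have h3 := h2 _ le_rfl
    rw [← hn] at h1 h3
    have : n * n = 2 * S n ((b + 1) * B - b) (2 * b + 2) (fun j => a.getD j 0)
        ((b + 1) * B - b + a.length) := by rw [htot, sq]
    rw [← htot]
    omega

/-- **The puzzle has a solution iff the items can be packed.** -/
theorem inst_iff {a : List ℕ} {b B : ℕ} (hb : 1 ≤ b) (hB : 1 ≤ B) (hsum : a.sum = b * B)
    (hpos : ∀ i < a.length, 1 ≤ a.getD i 0) : BoggleSolve (inst a b B) ↔ BPk a b B := by
  rw [solve_iff]
  have hlen : (inst a b B).1.length = (2 * b + 2) * B := by simp [inst]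
  rw [hlen, and_iff_right (inst_input hB hsum)]
  set n := (2 * b + 2) * B with hn
  have hge : (b + 1) * B ≥ b + 1 := Nat.le_mul_of_pos_right _ hB
  have hn2 : n = 2 * ((b + 1) * B) := by rw [hn]; ring
  have hs : ∑ i ∈ Finset.range a.length, a.getD i 0 = b * B := by
    rw [← hsum, sum_getD]
  have htot := S_total (k := (b + 1) * B - b) (r := a.length) (h := (b + 1) * B) hs hn hn2 (by omega)
  have key : ∀ pos : ℕ → ℤ × ℤ, (∀ w ∈ (inst a b B).2, w.IsChain fun u v => Adj (pos u) (pos v)) ↔
      ∀ i < (b + 1) * B - b + a.length, ∀ c, c + 1 < len n ((b + 1) * B - b) (2 * b + 2)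
        (fun j => a.getD j 0) i → Joined pos (S n ((b + 1) * B - b) (2 * b + 2)
          (fun j => a.getD j 0) i + c) := by
    intro pos
    rw [← cols_iff pos htot]
    unfold inst
    dsimp only
    rw [← hn]
    simp only [List.mem_flatMap, forall_exists_index, and_imp]
    constructor
    · intro h t ht
      rw [← words_iff]
      exact fun w hw => h w t ht hw
    · intro h w t ht hw
      exact (words_iff pos t).2 (h t ht) w hw
  simp only [key]
  unfold BPk
  constructor
  · rintro ⟨pos, h1, h2⟩
    exact sound h1 h2 hs hn hn2 (by omega) (by omega) (by omega) (by omega) (by omega) hpos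
  · rintro ⟨f, hf, hcap⟩
    exact complete hs hn hn2 (by omega) hf hcap

/-! ### Computation -/

section Gen

variable {α : Type} [TEnc α]

theorem poly_cols {n k r lam : α → ℕ} {a : α → List ℕ} (hn : UPoly n) (hk : UPoly k) (hr : UPoly r)
    (hlam : Poly lam) (ha : Poly a) :
    Poly (fun x => cols (n x) (k x) (r x) (lam x) (a x)) := by
  unfold cols cut
  have r1 : Poly (fun x => List.range (n x * n x / 2)) := by
    refine UPoly.range (UPoly.of_le (n := fun x => n x * n x) ?_ (UPoly.mul hn hn) fun x =>
      Nat.div_le_self _ _)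
    have := hn.toPoly
    fun_prop
  have r2 : Poly (fun x => List.range (k x + r x + 1)) :=
    (UPoly.add (UPoly.add hk hr) (UPoly.const 1)).range
  have r3 : Poly (fun x => List.range (k x + r x)) := (UPoly.add hk hr).range
  have p1 := hn.toPoly
  have p2 := hk.toPoly
  have p3 := hr.toPoly
  have q1 : Poly (fun x : α × ℕ => (((List.range (k x.1 + r x.1)).filter
      (fun j => decide (j < x.2))).map
      (fun j => if j < k x.1 then n x.1 else lam x.1 * (a x.1).getD (j - k x.1) 0)).sum) := by
    refine NPC.Poly.sum ?_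
    refine NPC.Poly.map (F := fun (x : α × ℕ) j => if j < k x.1 then n x.1 else
      lam x.1 * (a x.1).getD (j - k x.1) 0) ?_ ?_
    · refine NPC.Poly.filter (p := fun (x : α × ℕ) j => decide (j < x.2))
        (r3.comp (NPC.Poly.fst NPC.Poly.id)) ?_
      fun_prop
    · have e1 : Poly (fun p : (α × ℕ) × ℕ => k p.1.1) := p2.comp (NPC.Poly.fst (NPC.Poly.fst NPC.Poly.id))
      have e2 : Poly (fun p : (α × ℕ) × ℕ => n p.1.1) := p1.comp (NPC.Poly.fst (NPC.Poly.fst NPC.Poly.id))
      have e3 : Poly (fun p : (α × ℕ) × ℕ => lam p.1.1) := hlam.comp (NPC.Poly.fst (NPC.Poly.fst NPC.Poly.id))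
      have e4 : Poly (fun p : (α × ℕ) × ℕ => a p.1.1) := ha.comp (NPC.Poly.fst (NPC.Poly.fst NPC.Poly.id))
      fun_prop
  have q2 : Poly (fun x : α => (List.range (k x + r x + 1)).map (fun i =>
      (((List.range (k x + r x)).filter (fun j => decide (j < i))).map
      (fun j => if j < k x then n x else lam x * (a x).getD (j - k x) 0)).sum)) :=
    NPC.Poly.map (F := fun x i => (((List.range (k x + r x)).filter (fun j => decide (j < i))).map
      (fun j => if j < k x then n x else lam x * (a x).getD (j - k x) 0)).sum) r2 q1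
  refine NPC.Poly.filter (p := fun x t => decide (¬ (t + 1 ∈ (List.range (k x + r x + 1)).map
    (fun i => (((List.range (k x + r x)).filter (fun j => decide (j < i))).map
    (fun j => if j < k x then n x else lam x * (a x).getD (j - k x) 0)).sum)))) r1 ?_
  have q3 := q2.comp (NPC.Poly.fst (β := α) (γ := ℕ) NPC.Poly.id)
  refine NPC.Poly.decide_not ?_
  exact NPC.Poly.dec_mem (by fun_prop) q3

theorem poly_inst {b B : α → ℕ} {a : α → List ℕ} (hb : UPoly b) (hB : UPoly B) (ha : Poly a) :
    Poly (fun x => inst (a x) (b x) (B x)) := by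
  unfold inst
  have u1 : UPoly (fun x => (2 * b x + 2) * B x) :=
    UPoly.mul (UPoly.add (UPoly.mul (UPoly.const 2) hb) (UPoly.const 2)) hB
  have pb := hb.toPoly
  have pB := hB.toPoly
  have u2 : UPoly (fun x => (b x + 1) * B x - b x) := by
    refine UPoly.of_le (n := fun x => (b x + 1) * B x) ?_
      (UPoly.mul (UPoly.add hb (UPoly.const 1)) hB) fun x => Nat.sub_le _ _
    fun_prop
  have u3 : UPoly (fun x => (a x).length) := UPoly.length ha
  have p1 := u1.range
  have p2 := poly_cols u1 u2 u3 (lam := fun x => 2 * b x + 2) (by fun_prop) ha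
  refine NPC.Poly.pair ?_ ?_
  · exact NPC.Poly.map (F := fun _ _ => ()) p1 (by fun_prop)
  · refine NPC.Poly.flatMap (F := fun _ t => words t) p2 ?_
    unfold words
    fun_prop

end Gen

/-- The reduction from exact cover. -/
noncomputable def red (I : List (ℕ × ℕ × ℕ) × ℕ) : List Unit × List (List ℕ) :=
  if tst I then inst (sizes (clip I)) (bb (clip I)) (BB (clip I)) else ([], [])

theorem poly_red : Poly red := by
  unfold red
  refine NPC.Poly.ite (p := tst) poly_tst ?_ (NPC.Poly.const _)
  exact poly_inst ubb uBB (poly_sizes.comp poly_clip)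

theorem sizes_pos (I : List (ℕ × ℕ × ℕ) × ℕ) :
    ∀ i < (sizes I).length, 1 ≤ (sizes I).getD i 0 := by
  intro i hi
  rw [List.getD_eq_getElem _ _ hi]
  have h1 : (sizes I)[i] ∈ sizes I := List.getElem_mem hi
  unfold sizes at h1
  rw [List.mem_map] at h1
  obtain ⟨e, _, he⟩ := h1
  have h2 : (sizes I)[i] = min (Pool.Agent.H43R3.SN.sz I.1.length I.2 e)
      (20 * MM I.1.length I.2) := by
    rw [he]; rfl
  rw [h2]
  have h3 : 1 ≤ MM I.1.length I.2 := by unfold MM; omega
  have h4 : 1 ≤ wt e.1 := by unfold wt; split_ifs <;> norm_num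
  have h5 : 1 ≤ MM I.1.length I.2 * wt e.1 := Nat.one_le_iff_ne_zero.2 (by
    intro h; rcases Nat.mul_eq_zero.1 h with h | h <;> omega)
  refine le_min ?_ (by omega)
  unfold Pool.Agent.H43R3.SN.sz
  omega

theorem red_correct (I : List (ℕ × ℕ × ℕ) × ℕ) (hI : Pr I.1 I.2) :
    X3C I ↔ BoggleSolve (red I) := by
  have hbd : Pool.Agent.NPC.SNP.bd I = I := by
    unfold Pool.Agent.NPC.SNP.bd
    rw [Nat.min_eq_left (q_le hI)]
  rw [Pool.Agent.H43R3.SN.SRC.taskSRC I hI]
  have hb : 1 ≤ bb I := by
    have := hI.ne
    have h2 : 0 < I.1.length := List.length_pos_iff.2 this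
    unfold bb
    omega
  have hB : 1 ≤ BB I := by
    unfold BB MM
    omega
  by_cases h : tst I
  · have hc : clip I = I := by
      unfold clip
      rw [if_pos h, hbd]
    have hr : red I = inst (sizes I) (bb I) (BB I) := by
      unfold red
      rw [if_pos h, hc]
    have hsum : (sizes I).sum = bb I * BB I := by
      unfold tst at h
      rwa [hbd] at h
    rw [hr, inst_iff hb hB hsum (sizes_pos I)]
    exact and_iff_right hsum
  · have hr : red I = ([], []) := by
      unfold red
      rw [if_neg h]
    rw [hr]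
    constructor
    · rintro ⟨h1, _⟩
      exfalso
      apply h
      unfold tst
      rwa [hbd]
    · rintro ⟨⟨h1, -⟩, -⟩
      simp at h1

/-- **BOGGLE-SOLVE is NP-hard.** -/
theorem hard : NPHardP BoggleSolve :=
  (HardPr.toHardI (hardPr_X3Cr.trans (Pr' := fun _ => True) poly_red (fun _ _ => trivial)
    red_correct)).toNPHardP

end Pool.Agent.NPC.Q328.BG
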